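import Pool.Agent.Helper25.HL.Goals2

/-!
Project HL (MP_03bcbb_an), packet R3: P3 holds for most codes (union bound).
-/

set_option autoImplicit false

noncomputable section

namespace Pool.Agent.Helper15.HL

open Pool.Agent.Helper25.HL

theorem sum_choose_le (q M : ℕ) : ∑ k ∈ Finset.range (M + 1), q.choose k ≤ (q + 1) ^ M := by
  rw [add_pow]
  refine Finset.sum_le_sum fun k hk => ?_
  have hk' : k ≤ M := Nat.lt_succ_iff.1 (Finset.mem_range.1 hk)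
  have h1 : q.choose k ≤ q ^ k := Nat.choose_le_pow q k
  have h2 : 1 ≤ M.choose k := Nat.choose_pos hk'
  simp only [one_pow, mul_one, Nat.cast_id]
  calc q.choose k ≤ q ^ k := h1
    _ = q ^ k * 1 := (mul_one _).symm
    _ ≤ q ^ k * M.choose k := Nat.mul_le_mul_left _ h2

theorem card_small_le (q M : ℕ) :
    (Finset.univ.filter (fun S : Finset (Fin q) => S.card ≤ M)).card ≤ (q + 1) ^ M := by
  classical
  refine le_trans ?_ (sum_choose_le q M)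
  have hsub : Finset.univ.filter (fun S : Finset (Fin q) => S.card ≤ M) ⊆
      (Finset.range (M + 1)).biUnion
        (fun k => Finset.powersetCard k (Finset.univ : Finset (Fin q))) := by
    intro S hS
    rw [Finset.mem_filter] at hS
    rw [Finset.mem_biUnion]
    exact ⟨S.card, Finset.mem_range.2 (Nat.lt_succ_of_le hS.2),
      Finset.mem_powersetCard.2 ⟨Finset.subset_univ _, rfl⟩⟩
  refine (Finset.card_le_card hsub).trans (Finset.card_biUnion_le.trans ?_)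
  refine Finset.sum_le_sum fun k _ => ?_
  rw [Finset.card_powersetCard, Finset.card_univ, Fintype.card_fin]

theorem two_pow_le_exp (m : ℕ) : (2 : ℝ) ^ m ≤ Real.exp m := by
  have h : (2 : ℝ) ≤ Real.exp 1 := by
    have := Real.add_one_le_exp (1 : ℝ)
    linarith
  calc (2 : ℝ) ^ m ≤ (Real.exp 1) ^ m := pow_le_pow_left₀ (by norm_num) h m
    _ = Real.exp m := by rw [← Real.exp_nat_mul, mul_one]

/-- The numerical estimate for one value of `N`. -/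
theorem count_le {Z L p q N : ℕ} (hZ : 1 ≤ Z) (_hL : 1 ≤ L)
    (hp : (32 * Z ^ 3 * (L + Z) + 512 * Z ^ 3 * L + 4) ^ 2 ≤ p)
    (hq : q ≤ 2 ^ (Nat.sqrt p / 4)) (hN : p ≤ N) :
    ((q : ℝ) + 1) ^ (L * p) * (((4 * (q : ℝ) + 1) ^ Z) ^ N) *
      Real.exp (-((N : ℝ) * p / (16 * (Z : ℝ) ^ 3))) ≤
      Real.exp (-((p : ℝ) ^ 2 / (32 * (Z : ℝ) ^ 3))) := by
  set s := Nat.sqrt p with hs
  have hsT : 32 * Z ^ 3 * (L + Z) + 512 * Z ^ 3 * L + 4 ≤ s := by
    rw [hs, Nat.le_sqrt]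
    rw [pow_two] at hp
    exact hp
  have hss : s * s ≤ p := Nat.sqrt_le p
  have h4q : 4 * q + 1 ≤ 2 ^ (3 + s / 4) := by
    rw [pow_add]
    have : 1 ≤ 2 ^ (s / 4) := Nat.one_le_two_pow
    omega
  have hq1 : q + 1 ≤ 2 ^ (3 + s / 4) := by omega
  have hexp : 3 + s / 4 ≤ s := by omega
  have h4q' : 4 * (q : ℝ) + 1 ≤ (2 : ℝ) ^ s := by
    have : ((4 * q + 1 : ℕ) : ℝ) ≤ ((2 ^ (3 + s / 4) : ℕ) : ℝ) := by exact_mod_cast h4q
    push_cast at this
    exact this.trans (pow_le_pow_right₀ (by norm_num) hexp)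
  have hq1' : (q : ℝ) + 1 ≤ (2 : ℝ) ^ s := by
    have : ((q + 1 : ℕ) : ℝ) ≤ ((2 ^ (3 + s / 4) : ℕ) : ℝ) := by exact_mod_cast hq1
    push_cast at this
    exact this.trans (pow_le_pow_right₀ (by norm_num) hexp)
  have hA : ((q : ℝ) + 1) ^ (L * p) * (((4 * (q : ℝ) + 1) ^ Z) ^ N) ≤
      Real.exp ((s * (L + Z) * N : ℕ)) := by
    calc ((q : ℝ) + 1) ^ (L * p) * (((4 * (q : ℝ) + 1) ^ Z) ^ N)
        ≤ ((2 : ℝ) ^ s) ^ (L * p) * ((((2 : ℝ) ^ s) ^ Z) ^ N) := by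
          gcongr
      _ = (2 : ℝ) ^ (s * (L * p) + s * Z * N) := by
          rw [← pow_mul, ← pow_mul, ← pow_mul, ← pow_add, mul_assoc s Z N]
      _ ≤ (2 : ℝ) ^ (s * (L + Z) * N) := by
          apply pow_le_pow_right₀ (by norm_num)
          have : s * (L * p) ≤ s * L * N := by
            rw [← mul_assoc]; exact Nat.mul_le_mul_left _ hN
          calc s * (L * p) + s * Z * N ≤ s * L * N + s * Z * N := Nat.add_le_add_right this _
            _ = s * (L + Z) * N := by ring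
      _ ≤ Real.exp ((s * (L + Z) * N : ℕ)) := two_pow_le_exp _
  have hZr : (1 : ℝ) ≤ Z := by exact_mod_cast hZ
  have hZ3 : (0 : ℝ) < (Z : ℝ) ^ 3 := by positivity
  have hsr : (32 : ℝ) * (Z : ℝ) ^ 3 * (L + Z) ≤ s := by
    have h : 32 * Z ^ 3 * (L + Z) ≤ s := by omega
    have h' : ((32 * Z ^ 3 * (L + Z) : ℕ) : ℝ) ≤ (s : ℝ) := by exact_mod_cast h
    push_cast at h'
    exact h'
  have hssr : (s : ℝ) * s ≤ p := by exact_mod_cast hss
  have hNr : (p : ℝ) ≤ N := by exact_mod_cast hN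
  have hp0 : (0 : ℝ) ≤ p := Nat.cast_nonneg p
  have hN0 : (0 : ℝ) ≤ N := Nat.cast_nonneg N
  have hs0 : (0 : ℝ) ≤ s := Nat.cast_nonneg s
  have hkey : (s : ℝ) * (L + Z) ≤ p / (32 * (Z : ℝ) ^ 3) := by
    rw [le_div_iff₀ (by positivity)]
    calc (s : ℝ) * (L + Z) * (32 * (Z : ℝ) ^ 3) = (s : ℝ) * (32 * (Z : ℝ) ^ 3 * (L + Z)) := by
          ring
      _ ≤ (s : ℝ) * s := mul_le_mul_of_nonneg_left hsr hs0
      _ ≤ (p : ℝ) := hssr
  calc ((q : ℝ) + 1) ^ (L * p) * (((4 * (q : ℝ) + 1) ^ Z) ^ N) *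
        Real.exp (-((N : ℝ) * p / (16 * (Z : ℝ) ^ 3)))
      ≤ Real.exp ((s * (L + Z) * N : ℕ)) * Real.exp (-((N : ℝ) * p / (16 * (Z : ℝ) ^ 3))) :=
        mul_le_mul_of_nonneg_right hA (Real.exp_nonneg _)
    _ = Real.exp ((s * (L + Z) * N : ℕ) + -((N : ℝ) * p / (16 * (Z : ℝ) ^ 3))) := by
        rw [Real.exp_add]
    _ ≤ Real.exp (-((p : ℝ) ^ 2 / (32 * (Z : ℝ) ^ 3))) := by
        apply Real.exp_le_exp.2
        push_cast
        have e1 : (s : ℝ) * (L + Z) * N ≤ p / (32 * (Z : ℝ) ^ 3) * N :=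
          mul_le_mul_of_nonneg_right hkey hN0
        have e2 : (N : ℝ) * p / (16 * (Z : ℝ) ^ 3) = 2 * (p / (32 * (Z : ℝ) ^ 3) * N) := by
          field_simp; ring
        have e3 : (p : ℝ) ^ 2 / (32 * (Z : ℝ) ^ 3) ≤ p / (32 * (Z : ℝ) ^ 3) * N := by
          rw [pow_two, mul_div_right_comm]
          exact mul_le_mul_of_nonneg_left hNr (by positivity)
        linarith

theorem final_le {Z L p : ℕ} (hZ : 1 ≤ Z) (hL : 1 ≤ L)
    (hp : (32 * Z ^ 3 * (L + Z) + 512 * Z ^ 3 * L + 4) ^ 2 ≤ p) :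
    ((L * p + 1 : ℕ) : ℝ) * Real.exp (-((p : ℝ) ^ 2 / (32 * (Z : ℝ) ^ 3))) ≤ 1 / 8 := by
  have hZr : (1 : ℝ) ≤ Z := by exact_mod_cast hZ
  have hLr : (1 : ℝ) ≤ L := by exact_mod_cast hL
  have hZ3 : (0 : ℝ) < (Z : ℝ) ^ 3 := by positivity
  have hT : 32 * Z ^ 3 * (L + Z) + 512 * Z ^ 3 * L + 4 ≤ p := by
    refine le_trans ?_ hp
    rw [pow_two]
    exact Nat.le_mul_self _
  have h512 : (512 : ℝ) * (Z : ℝ) ^ 3 * L ≤ p := by
    have h : 512 * Z ^ 3 * L ≤ p := by omega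
    have h' : ((512 * Z ^ 3 * L : ℕ) : ℝ) ≤ (p : ℝ) := by exact_mod_cast h
    push_cast at h'
    exact h'
  have hp4 : (4 : ℝ) ≤ p := by
    have h : 4 ≤ p := by omega
    exact_mod_cast h
  have hp0 : (0 : ℝ) ≤ p := Nat.cast_nonneg p
  have h1 : 16 * (L : ℝ) * p ≤ (p : ℝ) ^ 2 / (32 * (Z : ℝ) ^ 3) := by
    rw [le_div_iff₀ (by positivity)]
    calc 16 * (L : ℝ) * p * (32 * (Z : ℝ) ^ 3) = (512 * (Z : ℝ) ^ 3 * L) * p := by ring
      _ ≤ (p : ℝ) * p := mul_le_mul_of_nonneg_right h512 hp0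
      _ = (p : ℝ) ^ 2 := (pow_two _).symm
  have h2 := Real.add_one_le_exp ((p : ℝ) ^ 2 / (32 * (Z : ℝ) ^ 3))
  have h3 : 8 * ((L : ℝ) * p + 1) ≤ Real.exp ((p : ℝ) ^ 2 / (32 * (Z : ℝ) ^ 3)) := by
    have h4 : (4 : ℝ) ≤ L * p := by nlinarith
    linarith
  rw [Real.exp_neg]
  push_cast
  rw [← div_eq_mul_inv, div_le_div_iff₀ (Real.exp_pos _) (by norm_num)]
  linarith

open Classical in
/-- `S_R3` from `S_F3` and `S_GIC`. -/
theorem r3 (h1 : S_F3) (h2 : S_GIC) : S_R3 := by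
  intro Z L hZ hL
  refine ⟨(32 * Z ^ 3 * (L + Z) + 512 * Z ^ 3 * L + 4) ^ 2, fun p q hp hq => ?_⟩
  obtain ⟨F, hF, hFc⟩ := h2.1 q Z
  have hp1 : 1 ≤ p := by
    refine le_trans ?_ hp
    exact Nat.one_le_pow _ _ (by omega)
  set Λ : ℝ := 8 * (Z : ℝ) ^ 3 * L with hΛ
  let bad : (N : ℕ) → Finset (Fin q) → (Fin N → Fin q → ℂ) →
      Finset (Fin p → Fin q → Bool) := fun N S γ =>
    if ((∀ i, GI Z (γ i)) ∧ (∀ i, ∀ t ∈ S, γ i t = 0) ∧ Disj γ) then
      Finset.univ.filter (fun σ : Fin p → Fin q → Bool =>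
        ¬ (∑ i, EB σ S Λ (RV σ (γ i)) ≤ (N : ℝ) / Z)) else ∅
  let SS : Finset (Finset (Fin q)) := Finset.univ.filter (fun S : Finset (Fin q) => S.card ≤ L * p)
  have hsub : Finset.univ.filter (fun σ : Fin p → Fin q → Bool => ¬ P3 Z L Λ σ) ⊆
      (Finset.Icc p (L * p)).biUnion (fun N => SS.biUnion (fun S =>
        (Fintype.piFinset (fun _ : Fin N => F)).biUnion (fun γ => bad N S γ))) := by
    intro σ hσ
    rw [Finset.mem_filter] at hσ
    have h := hσ.2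
    unfold P3 at h
    push Not at h
    obtain ⟨N, hN1, hN2, S, hS, γ, g1, g2, g3, g4⟩ := h
    rw [Finset.mem_biUnion]
    refine ⟨N, Finset.mem_Icc.2 ⟨hN1, hN2⟩, ?_⟩
    rw [Finset.mem_biUnion]
    refine ⟨S, Finset.mem_filter.2 ⟨Finset.mem_univ _, hS⟩, ?_⟩
    rw [Finset.mem_biUnion]
    refine ⟨γ, Fintype.mem_piFinset.2 (fun i => hF _ (g1 i)), ?_⟩
    simp only [bad]
    rw [if_pos ⟨g1, g2, g3⟩, Finset.mem_filter]
    exact ⟨Finset.mem_univ _, not_le.2 g4⟩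
  have hbad : ∀ N, ∀ S ∈ SS, ∀ γ : Fin N → Fin q → ℂ, ((bad N S γ).card : ℝ) ≤
      (2 : ℝ) ^ (p * q) * Real.exp (-((N : ℝ) * p / (16 * (Z : ℝ) ^ 3))) := by
    intro N S hS γ
    simp only [bad]
    split_ifs with hc
    · have := h1 p q N Z L S γ hp1 hZ hL (Finset.mem_filter.1 hS).2 hc.1 hc.2.1 hc.2.2
      have hcc : cnt (fun σ : Fin p → Fin q → Bool =>
          ¬ (∑ i, EB σ S (8 * (Z : ℝ) ^ 3 * L) (RV σ (γ i)) ≤ (N : ℝ) / Z)) =
          (Finset.univ.filter (fun σ : Fin p → Fin q → Bool =>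
            ¬ (∑ i, EB σ S Λ (RV σ (γ i)) ≤ (N : ℝ) / Z))).card := by
        unfold cnt; congr
      rw [hcc] at this
      exact this
    · simp only [Finset.card_empty, Nat.cast_zero]
      positivity
  have hcard : (cnt (fun σ : Fin p → Fin q → Bool => ¬ P3 Z L Λ σ) : ℝ) ≤
      ∑ N ∈ Finset.Icc p (L * p), ∑ S ∈ SS, ∑ γ ∈ Fintype.piFinset (fun _ : Fin N => F),
        ((bad N S γ).card : ℝ) := by
    have h := Finset.card_le_card hsub
    have h' : (Finset.univ.filter (fun σ : Fin p → Fin q → Bool => ¬ P3 Z L Λ σ)).card ≤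
        ∑ N ∈ Finset.Icc p (L * p), ∑ S ∈ SS, ∑ γ ∈ Fintype.piFinset (fun _ : Fin N => F),
          (bad N S γ).card := by
      refine h.trans (Finset.card_biUnion_le.trans ?_)
      refine Finset.sum_le_sum fun N _ => ?_
      refine Finset.card_biUnion_le.trans ?_
      refine Finset.sum_le_sum fun S _ => ?_
      exact Finset.card_biUnion_le
    have h'' := (Nat.cast_le (α := ℝ)).2 h'
    push_cast at h''
    have hcc : cnt (fun σ : Fin p → Fin q → Bool => ¬ P3 Z L Λ σ) =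
        (Finset.univ.filter (fun σ : Fin p → Fin q → Bool => ¬ P3 Z L Λ σ)).card := by
      unfold cnt; congr
    rw [hcc]
    exact h''
  have hone : ∀ N ∈ Finset.Icc p (L * p),
      ∑ S ∈ SS, ∑ γ ∈ Fintype.piFinset (fun _ : Fin N => F), ((bad N S γ).card : ℝ) ≤
        (2 : ℝ) ^ (p * q) * Real.exp (-((p : ℝ) ^ 2 / (32 * (Z : ℝ) ^ 3))) := by
    intro N hN
    have hN1 := (Finset.mem_Icc.1 hN).1
    set c : ℝ := (2 : ℝ) ^ (p * q) * Real.exp (-((N : ℝ) * p / (16 * (Z : ℝ) ^ 3))) with hc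
    have hc0 : 0 ≤ c := by positivity
    have hSS : (SS.card : ℝ) ≤ ((q : ℝ) + 1) ^ (L * p) := by
      have := card_small_le q (L * p)
      have h' := (Nat.cast_le (α := ℝ)).2 this
      push_cast at h'
      exact h'
    have hγ : ((Fintype.piFinset (fun _ : Fin N => F)).card : ℝ) ≤
        ((4 * (q : ℝ) + 1) ^ Z) ^ N := by
      rw [Fintype.card_piFinset]
      simp only [Finset.prod_const, Finset.card_univ, Fintype.card_fin]
      push_cast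
      have h' := (Nat.cast_le (α := ℝ)).2 hFc
      push_cast at h'
      exact pow_le_pow_left₀ (Nat.cast_nonneg _) h' N
    calc ∑ S ∈ SS, ∑ γ ∈ Fintype.piFinset (fun _ : Fin N => F), ((bad N S γ).card : ℝ)
        ≤ ∑ S ∈ SS, ∑ γ ∈ Fintype.piFinset (fun _ : Fin N => F), c :=
          Finset.sum_le_sum fun S hS => Finset.sum_le_sum fun γ _ => hbad N S hS γ
      _ = (SS.card : ℝ) * (((Fintype.piFinset (fun _ : Fin N => F)).card : ℝ) * c) := by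
          rw [Finset.sum_const, Finset.sum_const, nsmul_eq_mul, nsmul_eq_mul]
      _ ≤ ((q : ℝ) + 1) ^ (L * p) * ((((4 * (q : ℝ) + 1) ^ Z) ^ N) * c) := by
          apply mul_le_mul hSS _ (by positivity) (by positivity)
          exact mul_le_mul_of_nonneg_right hγ hc0
      _ = (2 : ℝ) ^ (p * q) * (((q : ℝ) + 1) ^ (L * p) * (((4 * (q : ℝ) + 1) ^ Z) ^ N) *
            Real.exp (-((N : ℝ) * p / (16 * (Z : ℝ) ^ 3)))) := by
          rw [hc]; ring
      _ ≤ (2 : ℝ) ^ (p * q) * Real.exp (-((p : ℝ) ^ 2 / (32 * (Z : ℝ) ^ 3))) :=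
          mul_le_mul_of_nonneg_left (count_le hZ hL hp hq hN1) (by positivity)
  calc (cnt (fun σ : Fin p → Fin q → Bool => ¬ P3 Z L Λ σ) : ℝ)
      ≤ ∑ N ∈ Finset.Icc p (L * p), ∑ S ∈ SS, ∑ γ ∈ Fintype.piFinset (fun _ : Fin N => F),
        ((bad N S γ).card : ℝ) := hcard
    _ ≤ ∑ N ∈ Finset.Icc p (L * p),
        (2 : ℝ) ^ (p * q) * Real.exp (-((p : ℝ) ^ 2 / (32 * (Z : ℝ) ^ 3))) :=
        Finset.sum_le_sum hone
    _ = ((Finset.Icc p (L * p)).card : ℝ) *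
        ((2 : ℝ) ^ (p * q) * Real.exp (-((p : ℝ) ^ 2 / (32 * (Z : ℝ) ^ 3)))) := by
        rw [Finset.sum_const, nsmul_eq_mul]
    _ ≤ ((L * p + 1 : ℕ) : ℝ) *
        ((2 : ℝ) ^ (p * q) * Real.exp (-((p : ℝ) ^ 2 / (32 * (Z : ℝ) ^ 3)))) := by
        apply mul_le_mul_of_nonneg_right _ (by positivity)
        have : (Finset.Icc p (L * p)).card ≤ L * p + 1 := by
          rw [Nat.card_Icc]; omega
        exact_mod_cast this
    _ = (2 : ℝ) ^ (p * q) * (((L * p + 1 : ℕ) : ℝ) *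
          Real.exp (-((p : ℝ) ^ 2 / (32 * (Z : ℝ) ^ 3)))) := by ring
    _ ≤ (2 : ℝ) ^ (p * q) * (1 / 8) :=
        mul_le_mul_of_nonneg_left (final_le hZ hL hp) (by positivity)
    _ = (2 : ℝ) ^ (p * q) / 8 := by ring

end Pool.Agent.Helper15.HL
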